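import Pool.Agent.Helper29.BL.QSN

/-!
Packet PACK of project BL (MP_a41896_nt).
-/

namespace Pool.Agent.Helper29.BL

open Matrix Filter Topology
open scoped MatrixOrder

section

variable {G : Type} [AddCommGroup G] {H : G → ℝ}

lemma pack_polar_sum (h : IsQuad H) {ι : Type} (s : Finset ι) (γ : ι → G) (n : ι → ℤ) (y : G) :
    polar' H (∑ i ∈ s, n i • γ i) y = ∑ i ∈ s, (n i : ℝ) * polar' H (γ i) y := by
  have h1 := map_sum (h.polarHom y) (fun i => n i • γ i) s
  have h2 : ∀ i, h.polarHom y (n i • γ i) = (n i : ℝ) * polar' H (γ i) y := by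
    intro i
    have := map_zsmul (h.polarHom y) (n i) (γ i)
    simpa [IsQuad.polarHom] using this
  simp only [h2] at h1
  exact h1

lemma pack_form (h : IsQuad H) {ι : Type} [Fintype ι] (γ : ι → G) (n : ι → ℤ) :
    H (∑ i, n i • γ i) = ∑ i, ∑ j, (n i : ℝ) * (polar' H (γ i) (γ j) / 2) * (n j : ℝ) := by
  have h1 := h.polar_self (∑ i, n i • γ i)
  rw [pack_polar_sum h] at h1
  have h2 : ∀ i, polar' H (γ i) (∑ j, n j • γ j) = ∑ j, (n j : ℝ) * polar' H (γ j) (γ i) := by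
    intro i
    rw [IsQuad.polar_comm, pack_polar_sum h]
  simp only [h2, Finset.mul_sum] at h1
  have h3 : H (∑ i, n i • γ i) = (∑ i, ∑ j, (n i : ℝ) * ((n j : ℝ) * polar' H (γ j) (γ i))) / 2 := by
    linarith
  rw [h3, Finset.sum_div]
  refine Finset.sum_congr rfl fun i _ => ?_
  rw [Finset.sum_div]
  refine Finset.sum_congr rfl fun j _ => ?_
  rw [IsQuad.polar_comm]
  ring

/-- the Gram matrix -/
noncomputable def packQ (H : G → ℝ) {ι : Type} (γ : ι → G) : Matrix ι ι ℝ :=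
  Matrix.of fun i j => polar' H (γ i) (γ j) / 2

lemma pack_form' (h : IsQuad H) {ι : Type} [Fintype ι] (γ : ι → G) (n : ι → ℤ) :
    H (∑ i, n i • γ i) = (fun i => (n i : ℝ)) ⬝ᵥ (packQ H γ *ᵥ fun i => (n i : ℝ)) := by
  rw [pack_form h]
  simp only [dotProduct, mulVec, packQ, Matrix.of_apply, Finset.mul_sum]
  refine Finset.sum_congr rfl fun i _ => Finset.sum_congr rfl fun j _ => ?_
  ring

lemma pack_tendsto (x : ℝ) : Tendsto (fun k : ℕ => (⌊(k + 1 : ℝ) * x⌋ : ℝ) / (k + 1 : ℝ)) atTop (𝓝 x) := by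
  have h0 : Tendsto (fun k : ℕ => (1 : ℝ) / (k + 1 : ℝ)) atTop (𝓝 0) := tendsto_one_div_add_atTop_nhds_zero_nat
  have h1 : Tendsto (fun k : ℕ => x - (1 : ℝ) / (k + 1 : ℝ)) atTop (𝓝 x) := by
    simpa using h0.const_sub x
  refine tendsto_of_tendsto_of_tendsto_of_le_of_le h1 tendsto_const_nhds ?_ ?_
  · intro k
    have hk : (0 : ℝ) < k + 1 := by positivity
    have := Int.sub_one_lt_floor ((k + 1 : ℝ) * x)
    simp only
    rw [le_div_iff₀ hk, sub_mul, one_div, inv_mul_cancel₀ hk.ne']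
    linarith
  · intro k
    have hk : (0 : ℝ) < k + 1 := by positivity
    have := Int.floor_le ((k + 1 : ℝ) * x)
    simp only
    rw [div_le_iff₀ hk]
    linarith

lemma packQ_psd (h : IsQuad H) {ι : Type} [Fintype ι] (γ : ι → G) : (packQ H γ).PosSemidef := by
  refine Matrix.PosSemidef.of_dotProduct_mulVec_nonneg ?_ ?_
  · ext i j
    simp only [packQ, Matrix.conjTranspose_apply, Matrix.of_apply, star_trivial]
    rw [IsQuad.polar_comm]
  · intro x
    have e : star x = x := by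
      ext i
      simp
    rw [e]
    have hc : Continuous fun x : ι → ℝ => x ⬝ᵥ (packQ H γ *ᵥ x) := by
      simp only [dotProduct, mulVec]
      fun_prop
    have ht : Tendsto (fun k : ℕ => fun i => (⌊(k + 1 : ℝ) * x i⌋ : ℝ) / (k + 1 : ℝ)) atTop (𝓝 x) :=
      tendsto_pi_nhds.2 fun i => pack_tendsto (x i)
    refine ge_of_tendsto ((hc.tendsto x).comp ht) (Eventually.of_forall fun k => ?_)
    have h1 := pack_form' h γ (fun i => ⌊(k + 1 : ℝ) * x i⌋)
    have h2 := h.nonneg (∑ i, ⌊(k + 1 : ℝ) * x i⌋ • γ i)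
    rw [h1] at h2
    have e1 : (fun i => (⌊(k + 1 : ℝ) * x i⌋ : ℝ) / (k + 1 : ℝ)) =
        (1 / (k + 1 : ℝ)) • fun i => (⌊(k + 1 : ℝ) * x i⌋ : ℝ) := by
      ext i
      simp only [Pi.smul_apply, smul_eq_mul]
      ring
    simp only [Function.comp_apply]
    rw [e1, mulVec_smul, smul_dotProduct, dotProduct_smul]
    simp only [smul_eq_mul]
    positivity

/-- an isometric embedding of the quadratic module into Euclidean space -/
lemma pack_embed (h : IsQuad H) {ι : Type} [Fintype ι] (γ : ι → G) :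
    ∃ φ : (ι → ℝ) →ₗ[ℝ] EuclideanSpace ℝ ι, ∀ n : ι → ℤ,
      ‖φ fun i => (n i : ℝ)‖ = √(H (∑ i, n i • γ i)) := by
  classical
  obtain ⟨L, hL⟩ := CStarAlgebra.nonneg_iff_eq_star_mul_self.mp (packQ_psd h γ).nonneg
  refine ⟨(WithLp.linearEquiv 2 ℝ (ι → ℝ)).symm.toLinearMap ∘ₗ L.mulVecLin, fun n => ?_⟩
  rw [pack_form' h, hL]
  rw [← Real.sqrt_sq (norm_nonneg _), EuclideanSpace.norm_sq_eq]
  congr 1
  rw [star_eq_conjTranspose, ← mulVec_mulVec, dotProduct_mulVec, vecMul_conjTranspose]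
  simp only [dotProduct]
  refine Finset.sum_congr rfl fun i _ => ?_
  simp [sq]

lemma pack_closure {ι : Type} [Fintype ι] (γ : ι → G) (z : G)
    (hz : z ∈ AddSubgroup.closure (Set.range γ)) : ∃ n : ι → ℤ, z = ∑ i, n i • γ i := by
  classical
  induction hz using AddSubgroup.closure_induction with
  | mem x hx =>
    obtain ⟨i, rfl⟩ := hx
    refine ⟨Pi.single i 1, ?_⟩
    rw [Finset.sum_eq_single i]
    · simp
    · intro j _ hj
      simp [Pi.single_eq_of_ne hj]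
    · intro h
      exact absurd (Finset.mem_univ i) h
  | zero => exact ⟨0, by simp⟩
  | add x y _ _ hx hy =>
    obtain ⟨n, rfl⟩ := hx
    obtain ⟨m, rfl⟩ := hy
    exact ⟨n + m, by simp [add_smul, Finset.sum_add_distrib]⟩
  | neg x _ hx =>
    obtain ⟨n, rfl⟩ := hx
    exact ⟨-n, by simp⟩

end

theorem pack : PACK := by
  classical
  intro G _ Γ hΓ H hH κ hκ
  obtain ⟨s, hs⟩ := hΓ
  let ι := {x // x ∈ s}
  let γ : ι → G := fun i => i.1
  have hr : Set.range γ = (s : Set G) := by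
    ext x
    simp [γ, ι]
  obtain ⟨φ, hφ⟩ := pack_embed hH γ
  have hn : ∀ z : G, ∃ n : ι → ℤ, z ∈ Γ → z = ∑ i, n i • γ i := by
    intro z
    by_cases hz : z ∈ Γ
    · rw [← hs, ← hr] at hz
      obtain ⟨n, hn⟩ := pack_closure γ z hz
      exact ⟨n, fun _ => hn⟩
    · exact ⟨0, fun h => absurd h hz⟩
  choose nz hnz using hn
  obtain ⟨t, ht, hcov⟩ := Metric.totallyBounded_iff.1
    (isCompact_closedBall (0 : EuclideanSpace ℝ ι) κ).totallyBounded (1 / 2) (by norm_num)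
  have : Fintype t := ht.fintype
  let e := Fintype.equivFin t
  refine ⟨Fintype.card t + 1, fun B hB ρ hρ hd => ?_⟩
  by_cases hBe : B.Nonempty
  swap
  · refine ⟨fun _ => Fin.last _, fun z hz => absurd ⟨z, hz⟩ hBe⟩
  obtain ⟨b₀, hb₀⟩ := hBe
  let ψ : G → EuclideanSpace ℝ ι := fun z => ρ⁻¹ • φ fun i => (nz (z - b₀) i : ℝ)
  have hψ : ∀ z ∈ B, ∃ y : t, dist (ψ z) y.1 < 1 / 2 := by
    intro z hz
    have h1 : ψ z ∈ Metric.closedBall (0 : EuclideanSpace ℝ ι) κ := by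
      rw [mem_closedBall_zero_iff]
      simp only [ψ]
      rw [norm_smul, hφ, ← hnz _ (Γ.sub_mem (hB z hz) (hB b₀ hb₀)), norm_inv, Real.norm_of_nonneg hρ.le]
      rw [inv_mul_le_iff₀ hρ]
      have := hd z hz b₀ hb₀
      linarith
    obtain ⟨y, hy, hy2⟩ := Set.mem_iUnion₂.1 (hcov h1)
    exact ⟨⟨y, hy⟩, hy2⟩
  let f : G → Fin (Fintype.card t + 1) := fun z =>
    if h : ∃ y : t, dist (ψ z) y.1 < 1 / 2 then (e h.choose).castSucc else Fin.last _
  refine ⟨f, fun z hz z' hz' hf => ?_⟩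
  have h1 := hψ z hz
  have h2 := hψ z' hz'
  simp only [f, dif_pos h1, dif_pos h2] at hf
  have h3 : h1.choose = h2.choose := e.injective (Fin.castSucc_injective _ hf)
  have h4 := h1.choose_spec
  have h5 := h2.choose_spec
  rw [← h3] at h5
  have h6 : dist (ψ z) (ψ z') < 1 := by
    calc dist (ψ z) (ψ z') ≤ dist (ψ z) h1.choose.1 + dist (ψ z') h1.choose.1 := dist_triangle_right _ _ _
      _ < 1 := by linarith
  have h7 : z - z' = ∑ i, (nz (z - b₀) - nz (z' - b₀)) i • γ i := by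
    have e1 := hnz _ (Γ.sub_mem (hB z hz) (hB b₀ hb₀))
    have e2 := hnz _ (Γ.sub_mem (hB z' hz') (hB b₀ hb₀))
    have e3 : z - z' = (z - b₀) - (z' - b₀) := by abel
    rw [e3]
    simp only [Pi.sub_apply, sub_smul, Finset.sum_sub_distrib]
    rw [← e1, ← e2]
  have h8 : (fun i => ((nz (z - b₀) - nz (z' - b₀)) i : ℝ)) =
      (fun i => (nz (z - b₀) i : ℝ)) - fun i => (nz (z' - b₀) i : ℝ) := by
    ext i
    simp
  rw [h7, ← hφ, h8, map_sub]
  rw [dist_eq_norm] at h6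
  simp only [ψ] at h6
  rw [← smul_sub, norm_smul, norm_inv, Real.norm_of_nonneg hρ.le, inv_mul_lt_iff₀ hρ] at h6
  linarith

/-- The packet, in the form asked for. -/
theorem pack_of : QSN → PACK := fun _ => pack

end Pool.Agent.Helper29.BL
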